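import Mathlib
import Pool.Agent.H26.ToricTransfer

/-!
# MP_df5e61_ag: ACC for minimal log discrepancies, toric germs with nondegenerate boundary

Let `Γ` be a DCC subset of `[0, 1]`.  The minimal log discrepancies `mld (x, X, Δ)`, where `X` is an
affine toric variety of dimension `n`, `x` is its torus-fixed point, `K_X + Δ` is `ℝ`-Cartier and
the boundary `Δ = Δ_inv + ∑ d_j H_j` is the sum of a torus-invariant divisor and of multiples of the
members of a Newton nondegenerate system of hypersurfaces, with coefficients in `Γ`, satisfy the
ascending chain condition.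
-/

universe u

open Pool.Agent.H26

/-- ACC for minimal log discrepancies of toric germs with Newton nondegenerate boundary whose
coefficients lie in a DCC set, in every dimension. -/
theorem Pool.Agent.H26.Kept.toricNondegenerate_acc
    (k : Type u) [Field k] [IsAlgClosed k] [CharZero k] (n : ℕ) (Γ : Set ℝ)
    (hΓ : Γ ⊆ Set.Icc 0 1) (hDCC : DCC Γ) : ACC (toricMlds k n Γ) :=
  toric_acc k n Γ hΓ hDCC
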